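import Pool.Agent.Helper78.KX.Defs

/-!
# KX block X1b: the cluster estimate
-/

set_option autoImplicit false

namespace Pool.Agent.Helper31.KX

open MeasureTheory Set Filter Topology Pool.Agent.Helper18.GP Pool.Agent.Helper82.FK
open Pool.Agent.Helper78.KX

/-- the product of the first factors -/
noncomputable def Pr (θ κ : ℝ) (σ : ℕ → ℝ) (g : ℝ → ℝ) (j : ℕ) (x : ℝ) : ℝ :=
  ∏ n ∈ Finset.range j, g (κ * x * θ ^ n + σ n)

/-- its integral -/
noncomputable def Zf (θ κ : ℝ) (σ : ℕ → ℝ) (g : ℝ → ℝ) (p q : ℝ) (j : ℕ) : ℝ := ∫ x in p..q, Pr θ κ σ g j x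

/-- its integral with a character -/
noncomputable def Rf (θ κ : ℝ) (σ : ℕ → ℝ) (g : ℝ → ℝ) (p q : ℝ) (j : ℕ) (y : ℝ) : ℂ :=
  ∫ x in p..q, e (κ * x * θ ^ j * y) * (Pr θ κ σ g j x : ℂ)

variable {θ κ p q s : ℝ} {σ : ℕ → ℝ} {g : ℝ → ℝ} {H : ℕ} {c : ℤ → ℂ}

theorem g_cont (hg : ∀ t, gp H c t = g t) : Continuous g := by
  have h1 : g = fun t => (gp H c t).re := by
    funext t
    rw [hg]
    simp
  rw [h1]
  exact Complex.continuous_re.comp (gp_cont H c)

theorem Pr_cont (hgc : Continuous g) (j : ℕ) : Continuous (Pr θ κ σ g j) := by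
  unfold Pr
  exact continuous_finsetProd _ fun n _ => by fun_prop

theorem Pr_nonneg (hg0 : ∀ t, 0 ≤ g t) (j : ℕ) (x : ℝ) : 0 ≤ Pr θ κ σ g j x :=
  Finset.prod_nonneg fun _ _ => hg0 _

theorem R_le_Z (hpq : p ≤ q) (hg0 : ∀ t, 0 ≤ g t) (j : ℕ) (y : ℝ) :
    ‖Rf θ κ σ g p q j y‖ ≤ Zf θ κ σ g p q j := by
  unfold Rf Zf
  refine (intervalIntegral.norm_integral_le_integral_norm hpq).trans (le_of_eq ?_)
  refine intervalIntegral.integral_congr fun x _ => ?_
  show ‖e (κ * x * θ ^ j * y) * (Pr θ κ σ g j x : ℂ)‖ = Pr θ κ σ g j x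
  rw [norm_mul, norm_e, one_mul, Complex.norm_real, Real.norm_eq_abs, abs_of_nonneg (Pr_nonneg hg0 j x)]

theorem R_zero (j : ℕ) : Rf θ κ σ g p q j 0 = (Zf θ κ σ g p q j : ℂ) := by
  unfold Rf Zf
  rw [← intervalIntegral.integral_ofReal]
  refine intervalIntegral.integral_congr fun x _ => ?_
  show e (κ * x * θ ^ j * 0) * (Pr θ κ σ g j x : ℂ) = (Pr θ κ σ g j x : ℂ)
  rw [mul_zero, e_zero, one_mul]

theorem R_succ (hg : ∀ t, gp H c t = g t) (j : ℕ) (y : ℝ) :
    Rf θ κ σ g p q (j + 1) y = ∑ h ∈ Finset.Icc (-(H : ℤ)) H, c h * e (h * σ j) * Rf θ κ σ g p q j (θ * y + h) := by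
  have hgc := g_cont hg
  unfold Rf
  have h1 : ∀ x : ℝ, e (κ * x * θ ^ (j + 1) * y) * (Pr θ κ σ g (j + 1) x : ℂ) =
      ∑ h ∈ Finset.Icc (-(H : ℤ)) H, c h * e (h * σ j) * (e (κ * x * θ ^ j * (θ * y + h)) * (Pr θ κ σ g j x : ℂ)) := by
    intro x
    have h2 : (Pr θ κ σ g (j + 1) x : ℂ) = (Pr θ κ σ g j x : ℂ) * gp H c (κ * x * θ ^ j + σ j) := by
      rw [hg]
      unfold Pr
      rw [Finset.prod_range_succ]
      push_cast
      rfl
    have h3 : gp H c (κ * x * θ ^ j + σ j) = ∑ h ∈ Finset.Icc (-(H : ℤ)) H, c h * e (h * (κ * x * θ ^ j + σ j)) := rfl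
    rw [h2, h3, ← mul_assoc, Finset.mul_sum]
    refine Finset.sum_congr rfl fun h _ => ?_
    have h4 : e (κ * x * θ ^ (j + 1) * y) * e (h * (κ * x * θ ^ j + σ j)) =
        e (h * σ j) * e (κ * x * θ ^ j * (θ * y + h)) := by
      rw [← e_add, ← e_add]
      congr 1
      ring
    calc e (κ * x * θ ^ (j + 1) * y) * (Pr θ κ σ g j x : ℂ) * (c h * e (h * (κ * x * θ ^ j + σ j)))
        = c h * (e (κ * x * θ ^ (j + 1) * y) * e (h * (κ * x * θ ^ j + σ j))) * (Pr θ κ σ g j x : ℂ) := by ring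
      _ = _ := by rw [h4]; ring
  simp_rw [h1]
  rw [intervalIntegral.integral_finsetSum]
  · refine Finset.sum_congr rfl fun h _ => ?_
    rw [intervalIntegral.integral_const_mul]
  · intro h _
    refine Continuous.intervalIntegrable ?_ _ _
    have h5 := continuous_e
    have h6 := Pr_cont (θ := θ) (κ := κ) (σ := σ) hgc j
    exact continuous_const.mul ((h5.comp (by fun_prop)).mul (Complex.continuous_ofReal.comp h6))

theorem sum_le (hc0 : c 0 = 1) (hnm : nm H c ≤ 1 + s) :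
    ∑ h ∈ (Finset.Icc (-(H : ℤ)) H).erase 0, ‖c h‖ ≤ s := by
  unfold nm at hnm
  have h0 : (0 : ℤ) ∈ Finset.Icc (-(H : ℤ)) H := Finset.mem_Icc.2 ⟨by omega, by omega⟩
  rw [← Finset.add_sum_erase _ _ h0, hc0, norm_one] at hnm
  linarith

theorem R_succ_sub (hg : ∀ t, gp H c t = g t) (hc0 : c 0 = 1) (hnm : nm H c ≤ 1 + s) (j : ℕ) (y : ℝ) {A' : ℝ}
    (hA' : 0 ≤ A') (h1 : ∀ h : ℤ, h ≠ 0 → |h| ≤ H → ‖Rf θ κ σ g p q j (θ * y + h)‖ ≤ A') :
    ‖Rf θ κ σ g p q (j + 1) y - Rf θ κ σ g p q j (θ * y)‖ ≤ s * A' := by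
  have h0 : (0 : ℤ) ∈ Finset.Icc (-(H : ℤ)) H := Finset.mem_Icc.2 ⟨by omega, by omega⟩
  rw [R_succ hg, ← Finset.add_sum_erase _ _ h0, hc0]
  have h2 : (1 : ℂ) * e (((0 : ℤ) : ℝ) * σ j) * Rf θ κ σ g p q j (θ * y + ((0 : ℤ) : ℝ)) = Rf θ κ σ g p q j (θ * y) := by
    rw [Int.cast_zero, zero_mul, e_zero, one_mul, one_mul, add_zero]
  rw [h2, add_sub_cancel_left]
  refine (norm_sum_le _ _).trans ?_
  calc ∑ h ∈ (Finset.Icc (-(H : ℤ)) H).erase 0, ‖c h * e (h * σ j) * Rf θ κ σ g p q j (θ * y + h)‖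
      ≤ ∑ h ∈ (Finset.Icc (-(H : ℤ)) H).erase 0, ‖c h‖ * A' := by
        refine Finset.sum_le_sum fun h hh => ?_
        rw [Finset.mem_erase, Finset.mem_Icc] at hh
        rw [norm_mul, norm_mul, norm_e, mul_one]
        exact mul_le_mul_of_nonneg_left (h1 h hh.1 (abs_le.2 hh.2)) (norm_nonneg _)
    _ = (∑ h ∈ (Finset.Icc (-(H : ℤ)) H).erase 0, ‖c h‖) * A' := by rw [Finset.sum_mul]
    _ ≤ s * A' := mul_le_mul_of_nonneg_right (sum_le hc0 hnm) hA'

theorem R_succ_le (hg : ∀ t, gp H c t = g t) (hc0 : c 0 = 1) (hnm : nm H c ≤ 1 + s) (j : ℕ) (y : ℝ) {A A' : ℝ}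
    (hA' : 0 ≤ A') (hA : ‖Rf θ κ σ g p q j (θ * y)‖ ≤ A)
    (h1 : ∀ h : ℤ, h ≠ 0 → |h| ≤ H → ‖Rf θ κ σ g p q j (θ * y + h)‖ ≤ A') :
    ‖Rf θ κ σ g p q (j + 1) y‖ ≤ A + s * A' := by
  have h2 := R_succ_sub hg hc0 hnm j y hA' h1
  have h3 := norm_le_norm_add_norm_sub' (Rf θ κ σ g p q (j + 1) y) (Rf θ κ σ g p q j (θ * y))
  linarith

theorem R_zero_le (hκ : 0 < κ) (h1 : 1 ≤ κ * (q - p)) {y : ℝ} (hy : 0 < |y|) :
    ‖Rf θ κ σ g p q 0 y‖ ≤ (q - p) / |y| := by
  have hpq : 0 < q - p := by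
    by_contra h
    push Not at h
    nlinarith
  have h2 : Rf θ κ σ g p q 0 y = ∫ x in p..q, e (κ * y * x) := by
    unfold Rf
    refine intervalIntegral.integral_congr fun x _ => ?_
    show e (κ * x * θ ^ 0 * y) * (Pr θ κ σ g 0 x : ℂ) = e (κ * y * x)
    unfold Pr
    rw [Finset.range_zero, Finset.prod_empty, Complex.ofReal_one, mul_one, pow_zero, mul_one]
    congr 1
    ring
  rw [h2]
  have h3 : 0 < κ * |y| := by positivity
  have h4 := vc1 (a := p) (b := q) (by linarith) (G := fun x => κ * y * x) (G' := fun _ => κ * y) (G'' := fun _ => 0)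
    (fun x _ => by simpa using (hasDerivAt_id x).const_mul (κ * y)) (fun x _ => hasDerivAt_const x _)
    continuousOn_const (m := κ * |y|) (V := 0) h3 (fun x _ => by rw [abs_mul, abs_of_pos hκ])
    (fun x _ => by simp)
  refine h4.trans ?_
  rw [zero_mul, add_zero, div_div, div_le_div_iff₀ (by positivity) hy]
  have h5 : (2 : ℝ) * |y| ≤ 2 * (κ * (q - p)) * |y| := by nlinarith
  have h6 : (1 : ℝ) ≤ Real.pi := by linarith [Real.pi_gt_three]
  have h7 : 0 ≤ (q - p) * (κ * |y|) := by positivity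
  nlinarith

/-- the characters far from zero -/
theorem R_big (hθ : 1 < θ) (hg : ∀ t, gp H c t = g t) (hc0 : c 0 = 1) (hnm : nm H c ≤ 1 + s)
    (hκ : 0 < κ) (h1 : 1 ≤ κ * (q - p)) (j : ℕ) : ∀ y : ℝ, 2 * H / (θ - 1) + 1 ≤ |y| →
    ‖Rf θ κ σ g p q j y‖ ≤ (q - p) * ((1 + s) / ((1 + θ) / 2)) ^ j / |y| := by
  have hpq : 0 < q - p := by
    by_contra h
    push Not at h
    nlinarith
  have hθ1 : 0 < θ - 1 := by linarith
  have hH0 : 0 ≤ 2 * (H : ℝ) / (θ - 1) := by positivity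
  have hs : 0 ≤ s := (Finset.sum_nonneg fun _ _ => norm_nonneg _).trans (sum_le hc0 hnm)
  induction j with
  | zero =>
    intro y hy
    rw [pow_zero, mul_one]
    exact R_zero_le hκ h1 (by linarith)
  | succ j ih =>
    intro y hy
    have hy0 : 0 < |y| := by linarith
    have hH : (H : ℝ) ≤ (θ - 1) / 2 * |y| := by
      have h2 : 2 * (H : ℝ) / (θ - 1) ≤ |y| := by linarith
      rw [div_le_iff₀ hθ1] at h2
      linarith
    -- new frequencies
    have hnew : ∀ h : ℤ, |h| ≤ H → (1 + θ) / 2 * |y| ≤ |θ * y + h| := by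
      intro h hh
      have e2 : |(h : ℝ)| ≤ H := by exact_mod_cast hh
      have e3 : |θ * y| - |(h : ℝ)| ≤ |θ * y + h| := by
        have := abs_sub_abs_le_abs_sub (θ * y) (-(h : ℝ))
        rw [abs_neg, sub_neg_eq_add] at this
        exact this
      rw [abs_mul, abs_of_pos (by linarith : 0 < θ)] at e3
      linarith
    have hb : ∀ h : ℤ, |h| ≤ H → ‖Rf θ κ σ g p q j (θ * y + h)‖ ≤
        (q - p) * ((1 + s) / ((1 + θ) / 2)) ^ j / ((1 + θ) / 2 * |y|) := by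
      intro h hh
      have h2 := hnew h hh
      refine (ih _ ?_).trans ?_
      · have : |y| ≤ (1 + θ) / 2 * |y| := by nlinarith
        linarith
      · exact div_le_div_of_nonneg_left (by positivity) (by positivity) h2
    have h3 := R_succ_le hg hc0 hnm j y (A := (q - p) * ((1 + s) / ((1 + θ) / 2)) ^ j / ((1 + θ) / 2 * |y|))
      (A' := (q - p) * ((1 + s) / ((1 + θ) / 2)) ^ j / ((1 + θ) / 2 * |y|)) (by positivity)
      (by simpa using hb 0 (by simp)) (fun h _ hh => hb h hh)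
    refine h3.trans (le_of_eq ?_)
    rw [pow_succ]
    field_simp

theorem Gd_le {m : ℕ} {a y : ℝ} (h : Gd θ H m a y) : a ≤ |y| := by
  cases m with
  | zero => exact h
  | succ m => exact h.1

theorem Gd_shift (hθ : 1 < θ) {m : ℕ} {a y : ℝ} (h : Gd θ H m a y) : Gd θ H m (a * θ) (θ * y) := by
  have hle : a * θ ≤ |θ * y| := by
    rw [abs_mul, abs_of_pos (by linarith : 0 < θ), mul_comm]
    exact mul_le_mul_of_nonneg_left (Gd_le h) (by linarith)
  cases m with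
  | zero => exact hle
  | succ m =>
    refine ⟨hle, fun d k hk hk' => ?_⟩
    have h1 := h.2 (d + 1) k hk hk'
    have e1 : a * θ * θ ^ (d + 1) = a * θ ^ (d + 1 + 1) := by ring
    have e2 : θ * y * θ ^ (d + 1) + k = y * θ ^ (d + 1 + 1) + k := by ring
    rw [e1, e2]
    exact h1

/-- the characters in general -/
theorem R_mid (hθ : 1 < θ) {c₀ : ℝ} (hc₀ : 0 < c₀) (hg : ∀ t, gp H c t = g t) (hg0 : ∀ t, 0 ≤ g t) (hc0 : c 0 = 1)
    (hnm : nm H c ≤ 1 + s) (hκ : 0 < κ) (h1 : 1 ≤ κ * (q - p)) (t : ℕ) : ∀ (m : ℕ) (a y : ℝ) (j : ℕ), c₀ ≤ a →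
    Gd θ H m a y → 2 * H / (θ - 1) + 1 ≤ a * θ ^ t → (∀ i, i < j → Zf θ κ σ g p q i ≤ 2 * (q - p)) →
    ‖Rf θ κ σ g p q j y‖ ≤ (q - p) * (((1 + s) / ((1 + θ) / 2)) ^ j * ((1 + θ) / 2) ^ t * (1 + 1 / c₀) +
      2 * (2 ^ t * s) ^ (m + 1)) := by
  have hpq : 0 < q - p := by
    by_contra h
    push Not at h
    nlinarith
  have hθ1 : 0 < θ - 1 := by linarith
  have hH0 : 0 ≤ 2 * (H : ℝ) / (θ - 1) := by positivity
  have hs : 0 ≤ s := (Finset.sum_nonneg fun _ _ => norm_nonneg _).trans (sum_le hc0 hnm)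
  have hC1 : 1 ≤ 1 + 1 / c₀ := by
    have : 0 < 1 / c₀ := by positivity
    linarith
  have hθ' : 1 ≤ (1 + θ) / 2 := by linarith
  induction t with
  | zero =>
    intro m a y j ha hGd hB _
    rw [pow_zero, mul_one] at hB
    have hy := Gd_le hGd
    refine (R_big hθ hg hc0 hnm hκ h1 j y (hB.trans hy)).trans ?_
    have hy1 : 1 ≤ |y| := by linarith
    rw [div_le_iff₀ (by linarith)]
    set A := ((1 + s) / ((1 + θ) / 2)) ^ j with hA
    have hA0 : 0 ≤ A := by positivity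
    have h3 : A ≤ (A * ((1 + θ) / 2) ^ 0 * (1 + 1 / c₀) + 2 * (2 ^ 0 * s) ^ (m + 1)) := by
      have h4 : 0 ≤ 2 * (2 ^ 0 * s) ^ (m + 1) := by positivity
      rw [pow_zero, mul_one]
      have h5 := le_mul_of_one_le_right hA0 hC1
      exact le_add_of_le_of_nonneg h5 h4
    calc (q - p) * A ≤ (q - p) * (A * ((1 + θ) / 2) ^ 0 * (1 + 1 / c₀) + 2 * (2 ^ 0 * s) ^ (m + 1)) :=
          mul_le_mul_of_nonneg_left h3 hpq.le
      _ ≤ _ := le_mul_of_one_le_right (mul_nonneg hpq.le (hA0.trans h3)) hy1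
  | succ t ih =>
    intro m a y j ha hGd hB hZ
    have hy := Gd_le hGd
    have hy0 : 0 < |y| := by linarith
    cases j with
    | zero =>
      refine (R_zero_le hκ h1 hy0).trans ?_
      rw [div_eq_mul_one_div]
      refine mul_le_mul_of_nonneg_left ?_ hpq.le
      have h3 : 1 / |y| ≤ 1 / c₀ := one_div_le_one_div_of_le hc₀ (ha.trans hy)
      have h4 : (1 : ℝ) ≤ ((1 + θ) / 2) ^ (t + 1) := one_le_pow₀ hθ'
      have h5 : 0 ≤ 2 * (2 ^ (t + 1) * s) ^ (m + 1) := by positivity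
      rw [pow_zero, one_mul]
      nlinarith
    | succ j =>
      have hZ' : ∀ i, i < j → Zf θ κ σ g p q i ≤ 2 * (q - p) := fun i hi => hZ i (by omega)
      have hB' : 2 * (H : ℝ) / (θ - 1) + 1 ≤ a * θ * θ ^ t := by
        rw [pow_succ] at hB
        linarith
      have ha' : c₀ ≤ a * θ := by nlinarith
      have h0 := ih m (a * θ) (θ * y) j ha' (Gd_shift hθ hGd) hB' hZ'
      set A := ((1 + s) / ((1 + θ) / 2)) ^ j with hA
      set T := ((1 + θ) / 2) ^ t with hT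
      have hA0 : 0 ≤ A := by positivity
      have hT0 : 0 ≤ T := by positivity
      have hstep : ((1 + s) / ((1 + θ) / 2)) ^ (j + 1) * ((1 + θ) / 2) ^ (t + 1) = (1 + s) * (A * T) := by
        rw [pow_succ, pow_succ, ← hA, ← hT]
        field_simp
      rw [hstep]
      have hu : 0 ≤ 2 ^ t * s := by positivity
      cases m with
      | zero =>
        have h3 := R_succ_le hg hc0 hnm j y (A := (q - p) * (A * T * (1 + 1 / c₀) + 2 * (2 ^ t * s) ^ (0 + 1)))
          (A' := 2 * (q - p)) (by positivity) h0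
          (fun h _ _ => (R_le_Z (by linarith) hg0 j _).trans (hZ j (by omega)))
        refine h3.trans ?_
        have h4 : (q - p) * (A * T * (1 + 1 / c₀) + 2 * (2 ^ t * s) ^ (0 + 1)) + s * (2 * (q - p)) =
            (q - p) * (A * T * (1 + 1 / c₀) + (2 * (2 ^ t * s) + 2 * s)) := by ring
        rw [h4]
        refine mul_le_mul_of_nonneg_left ?_ hpq.le
        have h5 : A * T * (1 + 1 / c₀) ≤ (1 + s) * (A * T) * (1 + 1 / c₀) := by
          have : 0 ≤ A * T * (1 + 1 / c₀) := by positivity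
          nlinarith
        have h6 : 2 * (2 ^ t * s) + 2 * s ≤ 2 * (2 ^ (t + 1) * s) ^ (0 + 1) := by
          have : (1 : ℝ) ≤ 2 ^ t := one_le_pow₀ (by norm_num)
          rw [zero_add, pow_one, pow_succ]
          nlinarith
        exact add_le_add h5 h6
      | succ m =>
        have h3 := R_succ_le hg hc0 hnm j y (A := (q - p) * (A * T * (1 + 1 / c₀) + 2 * (2 ^ t * s) ^ (m + 1 + 1)))
          (A' := (q - p) * (A * T * (1 + 1 / c₀) + 2 * (2 ^ t * s) ^ (m + 1))) (by positivity) h0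
          (fun h hh hh' => by
            have h7 := hGd.2 0 h hh hh'
            rw [zero_add, pow_one, mul_comm y] at h7
            exact ih m (a * θ) (θ * y + h) j ha' h7 hB' hZ')
        refine h3.trans ?_
        have h4 : (q - p) * (A * T * (1 + 1 / c₀) + 2 * (2 ^ t * s) ^ (m + 1 + 1)) +
            s * ((q - p) * (A * T * (1 + 1 / c₀) + 2 * (2 ^ t * s) ^ (m + 1))) =
            (q - p) * ((1 + s) * (A * T) * (1 + 1 / c₀) + 2 * ((2 ^ t * s) ^ (m + 1) * (2 ^ t * s + s))) := by ring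
        rw [h4]
        refine mul_le_mul_of_nonneg_left ?_ hpq.le
        have h5 : (2 ^ t * s) ^ (m + 1) * (2 ^ t * s + s) ≤ (2 ^ (t + 1) * s) ^ (m + 1) * (2 ^ (t + 1) * s) := by
          have h6 : (1 : ℝ) ≤ 2 ^ t := one_le_pow₀ (by norm_num)
          have h7 : (2 : ℝ) ^ t * s + s ≤ 2 ^ (t + 1) * s := by
            rw [pow_succ]
            nlinarith
          have h8 : (2 : ℝ) ^ t * s ≤ 2 ^ (t + 1) * s := by linarith
          exact mul_le_mul (pow_le_pow_left₀ hu h8 _) h7 (by positivity) (by positivity)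
        rw [pow_succ (2 ^ (t + 1) * s) (m + 1)]
        linarith

theorem cluster {θ : ℝ} (hθ : 1 < θ) (H k : ℕ) {c₀ : ℝ} (hc₀ : 0 < c₀)
    (hfew : ∀ h : ℤ, h ≠ 0 → |h| ≤ H → Gd θ H k c₀ h) :
    ∃ C s₀ : ℝ, 0 < C ∧ 0 < s₀ ∧ ∀ (c : ℤ → ℂ) (g : ℝ → ℝ) (s : ℝ), (∀ t, gp H c t = g t) → (∀ t, 0 ≤ g t) →
      c 0 = 1 → nm H c ≤ 1 + s → s ≤ s₀ → ∀ N : ℕ, N * s ^ k ≤ 1 → ∀ (κ : ℝ) (σ : ℕ → ℝ) (p q : ℝ), 0 < κ →
      1 ≤ κ * (q - p) → |(∫ x in p..q, ∏ n ∈ Finset.range N, g (κ * x * θ ^ n + σ n)) - (q - p)| ≤ C * s * (q - p) := by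
  obtain ⟨D, hD⟩ : ∃ D : ℕ, 2 * (H : ℝ) / (θ - 1) + 1 ≤ c₀ * θ ^ D := by
    have h1 := (tendsto_pow_atTop_atTop_of_one_lt hθ).const_mul_atTop hc₀
    exact (h1.eventually_ge_atTop (2 * (H : ℝ) / (θ - 1) + 1)).exists
  have hθ' : 1 < (1 + θ) / 2 := by linarith
  set θ' := (1 + θ) / 2 with hθ'd
  have hθ'1 : 0 < θ' - 1 := by linarith
  set C : ℝ := θ' ^ D * (1 + 1 / c₀) * (2 * θ' / (θ' - 1)) + 2 * 2 ^ (D * (k + 1)) with hC
  have hC0 : 0 < C := by positivity
  refine ⟨C, min ((θ' - 1) / 2) (min 1 (1 / C)), hC0, lt_min (by positivity) (lt_min one_pos (by positivity)), ?_⟩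
  intro c g s hg hg0 hc0 hnm hs0 N
  have hs : 0 ≤ s := (Finset.sum_nonneg fun _ _ => norm_nonneg _).trans (sum_le hc0 hnm)
  have hs1 : s ≤ (θ' - 1) / 2 := hs0.trans (min_le_left _ _)
  have hs2 : s ≤ 1 := hs0.trans ((min_le_right _ _).trans (min_le_left _ _))
  have hs3 : C * s ≤ 1 := by
    have h1 : s ≤ 1 / C := hs0.trans ((min_le_right _ _).trans (min_le_right _ _))
    rw [le_div_iff₀ hC0] at h1
    linarith
  induction N using Nat.strong_induction_on with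
  | _ N ih =>
    intro hN κ σ p q hκ h1
    have hpq : 0 < q - p := by
      by_contra h
      push Not at h
      nlinarith
    have hZ : ∀ i, i < N → Zf θ κ σ g p q i ≤ 2 * (q - p) := by
      intro i hi
      have h2 : (i : ℝ) * s ^ k ≤ 1 := by
        refine le_trans ?_ hN
        have : (i : ℝ) ≤ N := by exact_mod_cast hi.le
        exact mul_le_mul_of_nonneg_right this (by positivity)
      have h3 := ih i hi h2 κ σ p q hκ h1
      have h4 := (abs_le.1 h3).2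
      show (∫ x in p..q, ∏ n ∈ Finset.range i, g (κ * x * θ ^ n + σ n)) ≤ 2 * (q - p)
      nlinarith
    set a := (1 + s) / θ' with ha
    have ha0 : 0 ≤ a := by positivity
    have ha1 : a ≤ (θ' + 1) / 2 / θ' := by
      rw [ha]
      exact div_le_div_of_nonneg_right (by linarith) (by linarith)
    have ha2 : (θ' - 1) / (2 * θ') ≤ 1 - a := by
      have h2 : (θ' - 1) / (2 * θ') = 1 - (θ' + 1) / 2 / θ' := by
        field_simp
        ring
      rw [h2]
      linarith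
    have ha3 : 0 < 1 - a := lt_of_lt_of_le (by positivity) ha2
    -- increments
    have hinc : ∀ j ∈ Finset.range N, |Zf θ κ σ g p q (j + 1) - Zf θ κ σ g p q j| ≤
        s * ((q - p) * (a ^ j * θ' ^ D * (1 + 1 / c₀) + 2 * (2 ^ D * s) ^ (k + 1))) := by
      intro j hj
      rw [Finset.mem_range] at hj
      have h2 := R_succ_sub (θ := θ) (κ := κ) (σ := σ) (p := p) (q := q) hg hc0 hnm j 0
        (A' := (q - p) * (a ^ j * θ' ^ D * (1 + 1 / c₀) + 2 * (2 ^ D * s) ^ (k + 1))) (by positivity)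
        (fun h hh hh' => by
          rw [mul_zero, zero_add]
          exact R_mid hθ hc₀ hg hg0 hc0 hnm hκ h1 D k c₀ h j le_rfl (hfew h hh hh') hD (fun i hi => hZ i (by omega)))
      rw [mul_zero, R_zero, R_zero, ← Complex.ofReal_sub, Complex.norm_real, Real.norm_eq_abs] at h2
      exact h2
    have hZ0 : Zf θ κ σ g p q 0 = q - p := by
      unfold Zf Pr
      simp
    have htel : Zf θ κ σ g p q N - (q - p) = ∑ j ∈ Finset.range N, (Zf θ κ σ g p q (j + 1) - Zf θ κ σ g p q j) := by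
      rw [Finset.sum_range_sub, hZ0]
    show |Zf θ κ σ g p q N - (q - p)| ≤ C * s * (q - p)
    rw [htel]
    refine (Finset.abs_sum_le_sum_abs _ _).trans ((Finset.sum_le_sum hinc).trans ?_)
    rw [← Finset.mul_sum, ← Finset.mul_sum, Finset.sum_add_distrib, Finset.sum_const, Finset.card_range, nsmul_eq_mul]
    have h2 : ∑ j ∈ Finset.range N, a ^ j * θ' ^ D * (1 + 1 / c₀) ≤ θ' ^ D * (1 + 1 / c₀) * (2 * θ' / (θ' - 1)) := by
      have h3 : ∑ j ∈ Finset.range N, a ^ j * θ' ^ D * (1 + 1 / c₀) = θ' ^ D * (1 + 1 / c₀) * ∑ j ∈ Finset.range N, a ^ j := by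
        rw [Finset.mul_sum]
        exact Finset.sum_congr rfl fun j _ => by ring
      rw [h3]
      refine mul_le_mul_of_nonneg_left ?_ (by positivity)
      have h4 : (∑ j ∈ Finset.range N, a ^ j) * (1 - a) ≤ 1 := by
        have h5 := geom_sum_mul_neg a N
        rw [h5]
        have : 0 ≤ a ^ N := by positivity
        linarith
      have h6 : (∑ j ∈ Finset.range N, a ^ j) * ((θ' - 1) / (2 * θ')) ≤ 1 :=
        (mul_le_mul_of_nonneg_left ha2 (Finset.sum_nonneg fun _ _ => by positivity)).trans h4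
      have h7 : 2 * θ' / (θ' - 1) = 1 / ((θ' - 1) / (2 * θ')) := by rw [one_div_div]
      rw [h7, le_div_iff₀ (by positivity)]
      exact h6
    have h3 : (N : ℝ) * (2 * (2 ^ D * s) ^ (k + 1)) ≤ 2 * 2 ^ (D * (k + 1)) := by
      have h4 : (N : ℝ) * (2 * (2 ^ D * s) ^ (k + 1)) = 2 * 2 ^ (D * (k + 1)) * (s * (N * s ^ k)) := by
        rw [mul_pow, ← pow_mul]
        ring
      rw [h4]
      have h5 : s * (N * s ^ k) ≤ 1 := by
        have h6 : 0 ≤ (N : ℝ) * s ^ k := by positivity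
        nlinarith
      have h6 : (0 : ℝ) < 2 * 2 ^ (D * (k + 1)) := by positivity
      nlinarith
    calc s * ((q - p) * (∑ j ∈ Finset.range N, a ^ j * θ' ^ D * (1 + 1 / c₀) + (N : ℝ) * (2 * (2 ^ D * s) ^ (k + 1))))
        ≤ s * ((q - p) * C) := by
          refine mul_le_mul_of_nonneg_left (mul_le_mul_of_nonneg_left ?_ hpq.le) hs
          rw [hC]
          exact add_le_add h2 h3
      _ = C * s * (q - p) := by ring

end Pool.Agent.Helper31.KX
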