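import Pool.Agent.Helper78.KX.Defs

/-!
# KX block X1a: few digits
-/

set_option autoImplicit false

namespace Pool.Agent.Helper31.KX

open Filter Topology Pool.Agent.Helper78.KX

theorem Gd_mono {θ : ℝ} (hθ : 1 < θ) (H m : ℕ) : ∀ {c c' y : ℝ}, c' ≤ c → Gd θ H m c y → Gd θ H m c' y := by
  induction m with
  | zero =>
    intro c c' y h hc
    exact le_trans h hc
  | succ m ih =>
    intro c c' y h hc
    refine ⟨h.trans hc.1, fun d k hk hk' => ih ?_ (hc.2 d k hk hk')⟩
    exact mul_le_mul_of_nonneg_right h (by positivity)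

theorem Gd_triv {θ : ℝ} (hθ : 1 < θ) (H m : ℕ) : ∀ y : ℝ, Gd θ H m (|y| - H / (θ - 1)) y := by
  have h1 : 0 < θ - 1 := by linarith
  have h0 : 0 ≤ (H : ℝ) / (θ - 1) := div_nonneg (Nat.cast_nonneg _) h1.le
  induction m with
  | zero =>
    intro y
    show |y| - H / (θ - 1) ≤ |y|
    linarith
  | succ m ih =>
    intro y
    refine ⟨by linarith, fun d k hk hk' => Gd_mono hθ H m ?_ (ih _)⟩
    have hp : θ ≤ θ ^ (d + 1) := by
      calc θ = θ ^ 1 := (pow_one θ).symm
        _ ≤ θ ^ (d + 1) := pow_le_pow_right₀ hθ.le (by omega)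
    have e1 : |y * θ ^ (d + 1)| = |y| * θ ^ (d + 1) := by
      rw [abs_mul, abs_of_pos (by positivity : (0 : ℝ) < θ ^ (d + 1))]
    have e2 : |(k : ℝ)| ≤ H := by exact_mod_cast hk'
    have e3 : |y * θ ^ (d + 1)| - |(k : ℝ)| ≤ |y * θ ^ (d + 1) + k| := by
      have := abs_sub_abs_le_abs_sub (y * θ ^ (d + 1)) (-(k : ℝ))
      rw [abs_neg, sub_neg_eq_add] at this
      exact this
    have e4 : (H : ℝ) / (θ - 1) * θ = H / (θ - 1) + H := by
      field_simp
      ring
    have e5 : (H : ℝ) / (θ - 1) * θ ≤ (H : ℝ) / (θ - 1) * θ ^ (d + 1) := mul_le_mul_of_nonneg_left hp h0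
    rw [sub_mul]
    linarith

theorem exists_pos_le {α : Type*} (s : Finset α) (f : α → ℝ) (hf : ∀ x ∈ s, 0 < f x) :
    ∃ δ : ℝ, 0 < δ ∧ ∀ x ∈ s, δ ≤ f x := by
  classical
  induction s using Finset.induction_on with
  | empty => exact ⟨1, one_pos, fun x hx => by simp at hx⟩
  | insert a s ha ih =>
    obtain ⟨δ, h0, h⟩ := ih fun x hx => hf x (Finset.mem_insert_of_mem hx)
    refine ⟨min δ (f a), lt_min h0 (hf a (Finset.mem_insert_self a s)), fun x hx => ?_⟩
    rcases Finset.mem_insert.1 hx with rfl | hx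
    · exact min_le_right _ _
    · exact (min_le_left _ _).trans (h x hx)

theorem few_poly {θ : ℝ} (hθ : 1 < θ) (htr : Transcendental ℤ θ) (H m : ℕ) :
    ∀ P : Polynomial ℤ, P ≠ 0 → ∃ c : ℝ, 0 < c ∧ Gd θ H m c (Polynomial.aeval θ P) := by
  have hne : ∀ P : Polynomial ℤ, P ≠ 0 → Polynomial.aeval θ P ≠ 0 := fun P hP h0 => htr ⟨P, hP, h0⟩
  induction m with
  | zero => exact fun P hP => ⟨_, abs_pos.2 (hne P hP), le_refl _⟩
  | succ m ih =>
    intro P hP
    set y := Polynomial.aeval θ P with hy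
    have hy0 : 0 < |y| := abs_pos.2 (hne P hP)
    -- large shifts
    obtain ⟨E, hE⟩ : ∃ E : ℕ, ∀ d : ℕ, E ≤ d → (H : ℝ) + H / (θ - 1) ≤ |y| / 2 * θ ^ (d + 1) := by
      have h1 := (tendsto_pow_atTop_atTop_of_one_lt hθ).eventually_ge_atTop (((H : ℝ) + H / (θ - 1)) / (|y| / 2))
      obtain ⟨E, hE⟩ := eventually_atTop.1 h1
      refine ⟨E, fun d hd => ?_⟩
      have := hE (d + 1) (by omega)
      rw [div_le_iff₀ (by positivity)] at this
      linarith
    -- small shifts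
    have hs : ∀ x : ℕ × ℤ, ∃ c : ℝ, 0 < c ∧ (x.2 ≠ 0 → Gd θ H m (c * θ ^ (x.1 + 1)) (y * θ ^ (x.1 + 1) + x.2)) := by
      rintro ⟨d, h⟩
      by_cases hh : h = 0
      · exact ⟨1, one_pos, fun h' => absurd hh h'⟩
      · have hQ : P * Polynomial.X ^ (d + 1) + Polynomial.C h ≠ 0 := by
          intro h0
          have := congrArg (fun Q => Polynomial.coeff Q 0) h0
          simp at this
          exact hh this
        obtain ⟨c, c0, hc⟩ := ih _ hQ
        refine ⟨c / θ ^ (d + 1), by positivity, fun _ => ?_⟩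
        rw [div_mul_cancel₀ _ (by positivity)]
        have e : Polynomial.aeval θ (P * Polynomial.X ^ (d + 1) + Polynomial.C h) = y * θ ^ (d + 1) + h := by
          simp [hy]
        rw [← e]
        exact hc
    choose f f0 hf using hs
    obtain ⟨δ, δ0, hδ⟩ := exists_pos_le (Finset.range E ×ˢ Finset.Icc (-(H : ℤ)) H) f fun x _ => f0 x
    refine ⟨min δ (|y| / 2), lt_min δ0 (by positivity), ?_, fun d h h0 hH => ?_⟩
    · exact (min_le_right _ _).trans (by linarith)
    · rcases lt_or_ge d E with hd | hd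
      · refine Gd_mono hθ H m ?_ (hf (d, h) h0)
        refine mul_le_mul_of_nonneg_right ((min_le_left _ _).trans (hδ (d, h) ?_)) (by positivity)
        rw [Finset.mem_product, Finset.mem_range, Finset.mem_Icc]
        exact ⟨hd, abs_le.1 hH⟩
      · refine Gd_mono hθ H m ?_ (Gd_triv hθ H m _)
        have e1 : |y * θ ^ (d + 1)| = |y| * θ ^ (d + 1) := by
          rw [abs_mul, abs_of_pos (by positivity : (0 : ℝ) < θ ^ (d + 1))]
        have e2 : |(h : ℝ)| ≤ H := by exact_mod_cast hH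
        have e3 : |y * θ ^ (d + 1)| - |(h : ℝ)| ≤ |y * θ ^ (d + 1) + h| := by
          have := abs_sub_abs_le_abs_sub (y * θ ^ (d + 1)) (-(h : ℝ))
          rw [abs_neg, sub_neg_eq_add] at this
          exact this
        have e4 := hE d hd
        have e5 : min δ (|y| / 2) * θ ^ (d + 1) ≤ |y| / 2 * θ ^ (d + 1) :=
          mul_le_mul_of_nonneg_right (min_le_right _ _) (by positivity)
        linarith

theorem few {θ : ℝ} (hθ : 1 < θ) (htr : Transcendental ℤ θ) (H m : ℕ) :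
    ∃ c : ℝ, 0 < c ∧ ∀ h : ℤ, h ≠ 0 → |h| ≤ H → Gd θ H m c h := by
  have hs : ∀ h : ℤ, ∃ c : ℝ, 0 < c ∧ (h ≠ 0 → Gd θ H m c h) := by
    intro h
    by_cases hh : h = 0
    · exact ⟨1, one_pos, fun h' => absurd hh h'⟩
    · obtain ⟨c, c0, hc⟩ := few_poly hθ htr H m (Polynomial.C h) (by simpa using hh)
      refine ⟨c, c0, fun _ => ?_⟩
      simpa using hc
  choose f f0 hf using hs
  obtain ⟨δ, δ0, hδ⟩ := exists_pos_le (Finset.Icc (-(H : ℤ)) H) f fun x _ => f0 x
  refine ⟨δ, δ0, fun h h0 hH => Gd_mono hθ H m (hδ h ?_) (hf h h0)⟩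
  rw [Finset.mem_Icc]
  exact abs_le.1 hH

end Pool.Agent.Helper31.KX
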